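import Mathlib

namespace Pool.Agent.H.MP_4a08ba_lc

open Set

variable {X : Type*}

def KI (k : ℕ) (c : ℕ → Set X) : Prop :=
  ∀ s : Finset ℕ, s.card = k → ¬ ∃ x, ∀ i ∈ s, x ∈ c i

def Tr (B : Set (Set X)) (k : ℕ) (S : Set X) (n : ℕ∞) : Prop :=
  ∃ a : List ℕ → Set X, (∀ η, a η ∈ B) ∧
    (∀ ν : List ℕ, (ν.length : ℕ∞) ≤ n → ∃ x ∈ S, ∀ η ρ, η ≠ [] → η ++ ρ = ν → x ∈ a η) ∧
    ∀ η : List ℕ, (η.length : ℕ∞) < n → KI k (fun i => a (η ++ [i]))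

theorem KI.comp {k : ℕ} {c : ℕ → Set X} (h : KI k c) {f : ℕ → ℕ} (hf : Function.Injective f) :
    KI k (fun i => c (f i)) := by
  rintro s hs ⟨x, hx⟩
  refine h (s.image f) (by rw [Finset.card_image_of_injective _ hf, hs]) ⟨x, fun i hi => ?_⟩
  obtain ⟨j, hj, rfl⟩ := Finset.mem_image.1 hi
  exact hx j hj

variable {B : Set (Set X)} {k : ℕ} {S S' : Set X} {n m : ℕ∞}

theorem Tr.mono (h : Tr B k S n) (hS : S ⊆ S') : Tr B k S' n := by
  obtain ⟨a, h1, h2, h3⟩ := h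
  refine ⟨a, h1, fun ν hν => ?_, h3⟩
  obtain ⟨x, hx, hx'⟩ := h2 ν hν
  exact ⟨x, hS hx, hx'⟩

theorem Tr.le (h : Tr B k S n) (hm : m ≤ n) : Tr B k S m := by
  obtain ⟨a, h1, h2, h3⟩ := h
  exact ⟨a, h1, fun ν hν => h2 ν (hν.trans hm), fun η hη => h3 η (hη.trans_le hm)⟩

theorem Tr.nonempty (h : Tr B k S n) : S.Nonempty := by
  obtain ⟨a, -, h2, -⟩ := h
  obtain ⟨x, hx, -⟩ := h2 [] (by simp)
  exact ⟨x, hx⟩

theorem Tr.zero (hS : S.Nonempty) (hB : B.Nonempty) : Tr B k S 0 := by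
  obtain ⟨x, hx⟩ := hS
  obtain ⟨b, hb⟩ := hB
  refine ⟨fun _ => b, fun _ => hb, fun ν hν => ⟨x, hx, fun η ρ h1 h2 => ?_⟩, fun η hη => ?_⟩
  · have : ν = [] := by simpa using hν
    subst this
    simp at h2
    exact absurd h2.1 h1
  · simp at hη

theorem Tr.split (h : Tr B k S (n + 1)) :
    ∃ c : ℕ → Set X, (∀ i, c i ∈ B) ∧ KI k c ∧ ∀ i, Tr B k (S ∩ c i) n := by
  obtain ⟨a, h1, h2, h3⟩ := h
  refine ⟨fun i => a [i], fun i => h1 _, ?_, fun i => ⟨fun η => a (i :: η), fun η => h1 _, ?_, ?_⟩⟩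
  · simpa using h3 [] (by simp [pos_iff_ne_zero])
  · intro ν hν
    obtain ⟨x, hx, hx'⟩ := h2 (i :: ν) (by simpa using add_le_add_left hν 1)
    refine ⟨x, ⟨hx, hx' [i] ν (by simp) rfl⟩, fun η ρ _ h => hx' (i :: η) ρ (by simp) (by simp [h])⟩
  · intro η hη
    have := h3 (i :: η) (by
      simp only [List.length_cons, Nat.cast_add, Nat.cast_one]
      exact WithTop.add_lt_add_right WithTop.one_ne_top hη)
    simpa using this

def gl (c : ℕ → Set X) (a : ℕ → List ℕ → Set X) : List ℕ → Set X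
  | [] => c 0
  | [i] => c i
  | i :: j :: ρ => a i (j :: ρ)

theorem gl_cons (c : ℕ → Set X) (a : ℕ → List ℕ → Set X) (i : ℕ) {η : List ℕ} (h : η ≠ []) :
    gl c a (i :: η) = a i η := by
  cases η with
  | nil => exact absurd rfl h
  | cons j ρ => rfl

theorem Tr.glue {c : ℕ → Set X} (hc : ∀ i, c i ∈ B) (hk : KI k c) (h : ∀ i, Tr B k (S ∩ c i) n) :
    Tr B k S (n + 1) := by
  choose a h1 h2 h3 using h
  refine ⟨gl c a, ?_, ?_, ?_⟩
  · rintro (_ | ⟨i, _ | ⟨j, ρ⟩⟩)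
    · exact hc 0
    · exact hc i
    · exact h1 i _
  · rintro (_ | ⟨i, ν⟩) hν
    · obtain ⟨x, hx, -⟩ := h2 0 [] (by simp)
      refine ⟨x, hx.1, fun η ρ h1 h2 => ?_⟩
      simp at h2
      exact absurd h2.1 h1
    · have hν' : (ν.length : ℕ∞) ≤ n := by
        simp only [List.length_cons, Nat.cast_add, Nat.cast_one] at hν
        exact (WithTop.add_le_add_iff_right WithTop.one_ne_top).1 hν
      obtain ⟨x, hx, hx'⟩ := h2 i ν hν'
      refine ⟨x, hx.1, ?_⟩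
      rintro (_ | ⟨j, η⟩) ρ h1 h2
      · exact absurd rfl h1
      · simp only [List.cons_append, List.cons.injEq] at h2
        obtain ⟨rfl, h2⟩ := h2
        by_cases hη : η = []
        · subst hη; exact hx.2
        · rw [gl_cons _ _ _ hη]; exact hx' η ρ hη h2
  · rintro (_ | ⟨i, η⟩) hη
    · exact hk
    · have hη' : (η.length : ℕ∞) < n := by
        simp only [List.length_cons, Nat.cast_add, Nat.cast_one] at hη
        exact lt_of_add_lt_add_right hη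
      have := h3 i η hη'
      have e : (fun j => gl c a (i :: η ++ [j])) = fun j => a i (η ++ [j]) := by
        funext j
        exact gl_cons _ _ _ (by simp)
      rw [e]; exact this

theorem Tr.split_top (h : Tr B k S ⊤) :
    ∃ c : ℕ → Set X, (∀ i, c i ∈ B) ∧ KI k c ∧ ∀ i, Tr B k (S ∩ c i) ⊤ :=
  Tr.split (n := ⊤) (by simpa using h)

theorem drop {c : ℕ → Set X} (hc : ∀ i, c i ∈ B) (hk : KI k c) (h : ¬ Tr B k S (n + 1)) :
    {i | Tr B k (S ∩ c i) n}.Finite := by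
  by_contra hi
  have hi : {i | Tr B k (S ∩ c i) n}.Infinite := hi
  let f : ℕ → ℕ := fun j => (hi.natEmbedding _ j).1
  have hf : Function.Injective f := fun a b hab => (hi.natEmbedding _).injective (Subtype.ext hab)
  exact h (Tr.glue (c := fun j => c (f j)) (fun j => hc _) (hk.comp hf)
    fun j => (hi.natEmbedding _ j).2)

theorem extend {F : ℕ → Set (Set X)} (hs : ∀ N, ∀ A ∈ F N, ∀ C ∈ B, A ∩ C ∈ F (N + 1))
    (hB : B.Nonempty) (P : Set X) (s : ℕ) : ∀ (N : ℕ) (Y : ℕ → Set X), (∀ j, Y j ∈ F N) →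
    (∀ j, Tr B k (P ∩ Y j) ⊤) → (∀ j j', j' < j → ¬ Tr B k (Y j ∩ Y j') s) →
    ∃ (N' : ℕ) (Y' : ℕ → Set X), (∀ j, Y' j ∈ F N') ∧ (∀ j, Tr B k (P ∩ Y' j) ⊤) ∧
      ∀ j j', j' < j → ¬ (Y' j ∩ Y' j').Nonempty := by
  induction s with
  | zero =>
    intro N Y h1 h2 h3
    exact ⟨N, Y, h1, h2, fun j j' h hn => h3 j j' h (by simpa using Tr.zero hn hB)⟩
  | succ s ih =>
    intro N Y h1 h2 h3
    have key : ∀ j, ∃ C ∈ B, Tr B k (P ∩ Y j ∩ C) ⊤ ∧ ∀ j' < j, ¬ Tr B k (Y j ∩ Y j' ∩ C) s := by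
      intro j
      obtain ⟨c, hc, hk, ht⟩ := (h2 j).split_top
      have hfin : (⋃ j' ∈ Iio j, {i | Tr B k (Y j ∩ Y j' ∩ c i) s}).Finite :=
        (finite_Iio j).biUnion fun j' hj' => drop hc hk (by simpa using h3 j j' hj')
      obtain ⟨i, -, hi⟩ := infinite_univ.exists_notMem_finite hfin
      refine ⟨c i, hc i, ht i, fun j' hj' h => hi ?_⟩
      simp only [mem_iUnion]
      exact ⟨j', hj', h⟩
    choose C hC h4 h5 using key
    refine ih (N + 1) (fun j => Y j ∩ C j) (fun j => hs _ _ (h1 j) _ (hC j))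
      (fun j => by rw [← inter_assoc]; exact h4 j) fun j j' h ht => h5 j j' h (ht.mono ?_)
    rintro x ⟨⟨a, b⟩, c, -⟩
    exact ⟨⟨a, c⟩, b⟩

theorem matching (G : ℕ → ℕ → Prop) (h : ∀ n, ∃ i j, n ≤ i ∧ i < j ∧ G i j) :
    ∃ f g : ℕ → ℕ, (∀ t, f t < g t) ∧ (∀ t, g t < f (t + 1)) ∧ ∀ t, G (f t) (g t) := by
  choose I J h1 h2 h3 using h
  let u : ℕ → ℕ := fun t => Nat.rec 0 (fun _ r => J r + 1) t
  exact ⟨fun t => I (u t), fun t => J (u t), fun t => h2 _, fun t => h1 (J (u t) + 1),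
    fun t => h3 _⟩

theorem KI.pairs {c : ℕ → Set X} (h : KI (k + 1) c) (hk : 1 ≤ k) {f g : ℕ → ℕ}
    (h1 : ∀ t, f t < g t) (h2 : ∀ t, g t < f (t + 1)) : KI k (fun t => c (f t) ∩ c (g t)) := by
  have hf : StrictMono f := strictMono_nat_of_lt_succ fun t => (h1 t).trans (h2 t)
  rintro s hs ⟨x, hx⟩
  obtain ⟨t, ht⟩ : s.Nonempty := Finset.card_pos.1 (by omega)
  have hn : g t ∉ s.image f := by
    intro hm
    obtain ⟨j, -, hj⟩ := Finset.mem_image.1 hm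
    rcases le_or_gt j t with h' | h'
    · have := hf.monotone h'
      have := h1 t
      omega
    · have := hf.monotone (show t + 1 ≤ j from h')
      have := h2 t
      omega
  refine h (insert (g t) (s.image f)) ?_ ⟨x, fun i hi => ?_⟩
  · rw [Finset.card_insert_of_notMem hn, Finset.card_image_of_injective _ hf.injective, hs]
  · rcases Finset.mem_insert.1 hi with rfl | hi
    · exact (hx t ht).2
    · obtain ⟨j, hj, rfl⟩ := Finset.mem_image.1 hi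
      exact (hx j hj).1

theorem stepA {F : ℕ → Set (Set X)} (hk : 2 ≤ k) (h0 : univ ∈ F 0) (h1 : B ⊆ F 1)
    (hadd : ∀ M N, ∀ A ∈ F M, ∀ C ∈ F N, A ∩ C ∈ F (M + N))
    (C1 : ∀ S : ℕ → Set X, (∀ n, ∃ N, S n ∈ F N) → Antitone S →
      (∀ n : ℕ, Tr B (k + 1) (S n) n) → Tr B (k + 1) (⋂ n, S n) ⊤)
    (C2 : ∀ S : Set X, (∃ N, S ∈ F N) →
      (∀ s : ℕ, ∃ Q : ℕ → Set X, (∀ j, Q j ∈ F 2) ∧ KI k Q ∧ ∀ j, Tr B (k + 1) (S ∩ Q j) s) →
      ∃ Q : ℕ → Set X, (∀ j, Q j ∈ F 2) ∧ KI k Q ∧ ∀ j, Tr B (k + 1) (S ∩ Q j) ⊤)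
    (C3 : ∀ N, (∀ d : ℕ, Tr (F N) k univ d) → Tr (F N) k univ ⊤)
    (hT : Tr B (k + 1) univ ⊤) : ∃ N, Tr (F N) k univ ⊤ := by
  by_contra hcon
  have hfin : ∀ N, ∃ d : ℕ, ¬ Tr (F N) k univ d := by
    intro N
    by_contra h
    push Not at h
    exact hcon ⟨N, C3 N h⟩
  let good : Set X → Prop := fun S => (∃ N, S ∈ F N) ∧ Tr B (k + 1) S ⊤
  let St : ℕ → Set X → Prop := fun N S =>
    ∀ S' ⊆ S, good S' → ∀ d : ℕ, Tr (F N) k S d → Tr (F N) k S' d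
  have step : ∀ (N : ℕ) (S : {S // good S}), ∃ S' : {S // good S}, S'.1 ⊆ S.1 ∧ St N S'.1 := by
    intro N S
    have hex : ∃ d : ℕ, ∃ S' : {S // good S}, S'.1 ⊆ S.1 ∧ ¬ Tr (F N) k S'.1 d := by
      obtain ⟨d, hd⟩ := hfin N
      exact ⟨d, S, subset_rfl, fun h => hd (h.mono (subset_univ _))⟩
    classical
    obtain ⟨S', h1, h2⟩ := Nat.find_spec hex
    refine ⟨S', h1, fun S'' h3 h4 d hd => ?_⟩
    by_contra h5
    have := Nat.find_min' hex (m := d) ⟨⟨S'', h4⟩, h3.trans h1, h5⟩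
    exact h2 (hd.le (by exact_mod_cast this))
  choose f hf1 hf2 using step
  let q : ℕ → {S // good S} := fun n =>
    Nat.rec (f 0 ⟨univ, ⟨0, h0⟩, hT⟩) (fun n r => f (n + 1) r) n
  have hq1 : Antitone fun n => (q n).1 := antitone_nat_of_succ_le fun n => hf1 (n + 1) (q n)
  have hq2 : ∀ n, St n (q n).1 := by
    rintro (_ | n)
    · exact hf2 0 _
    · exact hf2 (n + 1) (q n)
  have contra : ∀ (N : ℕ) (Q : ℕ → Set X), (∀ j, Q j ∈ F N) → KI k Q →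
      (∀ j, Tr B (k + 1) ((q N).1 ∩ Q j) ⊤) → False := by
    intro N Q hQ hK ht
    have : ∀ d : ℕ, Tr (F N) k (q N).1 d := by
      intro d
      induction d with
      | zero => simpa using Tr.zero (q N).2.2.nonempty ⟨Q 0, hQ 0⟩
      | succ d ih =>
        obtain ⟨M, hM⟩ := (q N).2.1
        simpa using Tr.glue hQ hK fun j =>
          hq2 N _ inter_subset_left ⟨⟨_, hadd _ _ _ hM _ (hQ j)⟩, ht j⟩ d ih
    obtain ⟨d, hd⟩ := hfin N
    exact hd ((this d).mono (subset_univ _))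
  have hP := C1 (fun n => (q n).1) (fun n => (q n).2.1) hq1 fun n => (q n).2.2.le le_top
  obtain ⟨c, hc, hK, ht⟩ := hP.split_top
  by_cases hcase : ∀ s : ℕ, ∀ n, ∃ i j, n ≤ i ∧ i < j ∧ Tr B (k + 1) ((q 2).1 ∩ (c i ∩ c j)) s
  · obtain ⟨Q, hQ, hK', ht'⟩ := C2 (q 2).1 (q 2).2.1 fun s => by
      obtain ⟨f, g, e1, e2, e3⟩ := matching _ (hcase s)
      exact ⟨fun t => c (f t) ∩ c (g t), fun t => hadd 1 1 _ (h1 (hc _)) _ (h1 (hc _)),
        hK.pairs (by omega) e1 e2, e3⟩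
    exact contra 2 Q hQ hK' ht'
  · push Not at hcase
    obtain ⟨s, n, hs⟩ := hcase
    obtain ⟨M, hM⟩ := (q 2).2.1
    obtain ⟨N, Y, e1, e2, e3⟩ := extend (F := F) (k := k + 1)
      (fun N A hA C hC => hadd _ _ _ hA _ (h1 hC)) ⟨c 0, hc 0⟩ (⋂ n, (q n).1) s (M + 1)
      (fun j => (q 2).1 ∩ c (n + j)) (fun j => hadd _ _ _ hM _ (h1 (hc _)))
      (fun j => (ht (n + j)).mono fun x hx => ⟨hx.1, mem_iInter.1 hx.1 2, hx.2⟩)
      (fun j j' h h' => hs (n + j') (n + j) (by omega) (by omega)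
        (h'.mono fun x hx => ⟨hx.1.1, hx.2.2, hx.1.2⟩))
    refine contra N Y e1 ?_ fun j => (e2 j).mono fun x hx => ⟨mem_iInter.1 hx.1 N, hx.2⟩
    rintro s hs ⟨x, hx⟩
    obtain ⟨i, hi, j, hj, hij⟩ := Finset.one_lt_card.1 (show 1 < s.card by omega)
    rcases lt_or_gt_of_ne hij with h | h
    · exact e3 j i h ⟨x, hx j hj, hx i hi⟩
    · exact e3 i j h ⟨x, hx i hi, hx j hj⟩

end Pool.Agent.H.MP_4a08ba_lc
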