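import Pool.Agent.H.MP_4a08ba_lc.A

namespace Pool.Agent.H.MP_4a08ba_lc

open Set Filter

universe w

noncomputable abbrev U : Filter ℕ := (hyperfilter ℕ : Ultrafilter ℕ)

theorem sat {W ι : Type*} [Nonempty W] [Countable ι] (Φ : ι → ℕ → W → Prop)
    (h : ∀ F : Finset ι, ∃ w : ℕ → W, ∀ m ∈ F, ∀ᶠ i in U, Φ m i (w i)) :
    ∃ w : ℕ → W, ∀ m, ∀ᶠ i in U, Φ m i (w i) := by
  classical
  obtain ⟨f, hf⟩ := exists_injective_nat ι
  let A : ℕ → ℕ → Prop := fun n i => ∃ z, ∀ m, f m < n → Φ m i z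
  have hA : ∀ n, ∀ᶠ i in U, A n i := by
    intro n
    obtain ⟨w, hw⟩ := h ((finite_Iio n).preimage hf.injOn).toFinset
    refine ((eventually_all_finset _).2 hw).mono fun i hi => ⟨w i, fun m hm => hi m ?_⟩
    simpa using hm
  have key : ∀ i, ∃ z, ∀ n ≤ i, A n i → ∀ m, f m < n → Φ m i z := by
    intro i
    by_cases hi : ∃ n ≤ i, A n i
    · obtain ⟨n0, h1, h2⟩ := hi
      obtain ⟨z, hz⟩ := Nat.findGreatest_spec (P := fun n => A n i) h1 h2
      exact ⟨z, fun n h3 h4 m hm =>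
        hz m (hm.trans_le (Nat.le_findGreatest (P := fun n => A n i) h3 h4))⟩
    · exact ⟨Classical.arbitrary W, fun n h1 h2 => absurd ⟨n, h1, h2⟩ hi⟩
  choose w hw using key
  refine ⟨w, fun m => ?_⟩
  have h2 : ∀ᶠ i in U, f m + 1 ≤ i := Nat.hyperfilter_le_atTop (eventually_ge_atTop _)
  filter_upwards [hA (f m + 1), h2] with i h1 h2
  exact hw i _ h2 h1 m (by omega)

variable {X0 Y0 Z0 : Type*}

def rel (R : X0 → Y0 → Prop) (y : ℕ → Y0) : Set (ℕ → X0) := {x | ∀ᶠ i in U, R (x i) (y i)}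

def fam (R : X0 → Y0 → Prop) : Set (Set (ℕ → X0)) := range (rel R)

def pw (R : X0 → Y0 → Prop) (ι : Type) : X0 → (ι → Y0) → Prop := fun x y => ∀ t, R x (y t)

def IntS (S : Set (ℕ → X0)) : Prop :=
  ∃ S0 : ℕ → X0 → Prop, ∀ x, x ∈ S ↔ ∀ᶠ i in U, S0 i (x i)

theorem IntS.of_fam {R : X0 → Y0 → Prop} {S : Set (ℕ → X0)} (h : S ∈ fam R) : IntS S := by
  obtain ⟨y, rfl⟩ := h
  exact ⟨fun i z => R z (y i), fun x => Iff.rfl⟩

theorem incons_iff [Nonempty X0] (R : X0 → Y0 → Prop) (s : Finset ℕ) (y : ℕ → ℕ → Y0) :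
    (¬ ∃ x, ∀ j ∈ s, x ∈ rel R (y j)) ↔ ∀ᶠ i in U, ¬ ∃ z, ∀ j ∈ s, R z (y j i) := by
  rw [Ultrafilter.eventually_not, Filter.skolem]
  simp only [eventually_all_finset, rel, mem_ofPred_eq]

theorem compact [Nonempty X0] [Nonempty Y0] [Nonempty Z0] (R1 : X0 → Y0 → Prop)
    (R2 : X0 → Z0 → Prop) (k1 k2 : ℕ) (S : ℕ → Set (ℕ → X0)) (hS : ∀ n, IntS (S n))
    (anti : Antitone S)
    (h : ∀ n : ℕ, ∃ Q : ℕ → Set (ℕ → X0), (∀ j, Q j ∈ fam R1) ∧ KI k1 Q ∧
      ∀ j, Tr (fam R2) k2 (S n ∩ Q j) n) :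
    ∃ Q : ℕ → Set (ℕ → X0), (∀ j, Q j ∈ fam R1) ∧ KI k1 Q ∧
      ∀ j, Tr (fam R2) k2 ((⋂ n, S n) ∩ Q j) ⊤ := by
  choose S0 hS0 using hS
  let Φ : ℕ × List ℕ × List ℕ × ℕ × Finset ℕ → ℕ →
      (ℕ → Y0) × (ℕ → List ℕ → Z0) × (ℕ → List ℕ → X0) → Prop := fun p i w =>
    (p.2.2.2.2.card = k1 → ¬ ∃ z, ∀ j ∈ p.2.2.2.2, R1 z (w.1 j)) ∧
    (p.2.2.2.2.card = k2 → ¬ ∃ z, ∀ t ∈ p.2.2.2.2, R2 z (w.2.1 p.1 (p.2.1 ++ [t]))) ∧
    S0 p.2.2.2.1 i (w.2.2 p.1 (p.2.1 ++ p.2.2.1)) ∧ R1 (w.2.2 p.1 (p.2.1 ++ p.2.2.1)) (w.1 p.1) ∧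
    (p.2.1 ≠ [] → R2 (w.2.2 p.1 (p.2.1 ++ p.2.2.1)) (w.2.1 p.1 p.2.1))
  obtain ⟨w, hw⟩ := sat Φ (by
    intro F
    let wt : ℕ × List ℕ × List ℕ × ℕ × Finset ℕ → ℕ := fun p =>
      p.2.1.length + p.2.2.1.length + p.2.2.2.1 + 1
    obtain ⟨Q, hQ, hK, hT⟩ := h (F.sup wt)
    choose y hy using hQ
    choose a h1 h2 h3 using hT
    choose z hz using h1
    have h2' : ∀ j (ν : List ℕ), ∃ x, ν.length ≤ F.sup wt → x ∈ S (F.sup wt) ∩ Q j ∧
        ∀ η ρ, η ≠ [] → η ++ ρ = ν → x ∈ a j η := by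
      intro j ν
      by_cases hν : ν.length ≤ F.sup wt
      · obtain ⟨x, hx⟩ := h2 j ν (by exact_mod_cast hν)
        exact ⟨x, fun _ => hx⟩
      · exact ⟨Classical.arbitrary _, fun h => absurd h hν⟩
    choose x hx using h2'
    refine ⟨fun i => (fun j => y j i, fun j η => z j η i, fun j ν => x j ν i), ?_⟩
    rintro ⟨j, η, ρ, n, s⟩ hp
    have hw : η.length + ρ.length + n + 1 ≤ F.sup wt := Finset.le_sup (f := wt) hp
    obtain ⟨⟨e1, e2⟩, e3⟩ := hx j (η ++ ρ) (by simp; omega)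
    refine Eventually.and ?_ (Eventually.and ?_ (Eventually.and ?_ (Eventually.and ?_ ?_)))
    · refine eventually_imp_distrib_left.2 fun hs => (incons_iff R1 s y).1 ?_
      simpa only [hy] using hK s hs
    · refine eventually_imp_distrib_left.2 fun hs =>
        (incons_iff R2 s fun t => z j (η ++ [t])).1 ?_
      simpa only [hz] using h3 j η (by exact_mod_cast (by omega)) s hs
    · exact (hS0 n _).1 (anti (by omega) e1)
    · rw [← hy j] at e2; exact e2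
    · refine eventually_imp_distrib_left.2 fun hη => ?_
      have := e3 η ρ hη rfl
      rw [← hz j η] at this; exact this)
  refine ⟨fun j => rel R1 fun i => (w i).1 j, fun j => ⟨_, rfl⟩, fun s hs => ?_, fun j =>
    ⟨fun η => rel R2 fun i => (w i).2.1 j η, fun η => ⟨_, rfl⟩, fun ν _ =>
      ⟨fun i => (w i).2.2 j ν, ⟨mem_iInter.2 fun n => (hS0 n _).2 ?_, ?_⟩, ?_⟩, fun η _ s hs => ?_⟩⟩
  · exact (incons_iff R1 s _).2 ((hw (0, [], [], 0, s)).mono fun i hi => hi.1 hs)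
  · exact (hw (j, [], ν, n, ∅)).mono fun i hi => hi.2.2.1
  · exact (hw (j, [], ν, 0, ∅)).mono fun i hi => hi.2.2.2.1
  · rintro η ρ hη rfl
    exact (hw (j, η, ρ, 0, ∅)).mono fun i hi => hi.2.2.2.2 hη
  · exact (incons_iff R2 s fun t i => (w i).2.1 j (η ++ [t])).2
      ((hw (j, η, [], 0, s)).mono fun i hi => hi.2.1 hs)

theorem compact1 [Nonempty X0] [Nonempty Y0] (R : X0 → Y0 → Prop) (k : ℕ)
    (S : ℕ → Set (ℕ → X0)) (hS : ∀ n, IntS (S n)) (anti : Antitone S)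
    (h : ∀ n : ℕ, Tr (fam R) k (S n) n) : Tr (fam R) k (⋂ n, S n) ⊤ := by
  obtain ⟨Q, h1, h2, h3⟩ := compact R R k k S hS anti fun n => by
    obtain ⟨Q, h1, h2, h3⟩ := Tr.split (n := n) (by simpa using h (n + 1))
    exact ⟨Q, h1, h2, fun j => (h3 j).mono (inter_subset_inter_left _ (anti n.le_succ))⟩
  simpa using Tr.glue h1 h2 h3

theorem Tr.monoB {X : Type*} {B B' : Set (Set X)} {k : ℕ} {S : Set X} {n : ℕ∞}
    (h : Tr B k S n) (hB : B ⊆ B') : Tr B' k S n := by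
  obtain ⟨a, h1, h2⟩ := h
  exact ⟨a, fun η => hB (h1 η), h2⟩

theorem stepA' [Nonempty X0] [Nonempty Y0] (R : X0 → Y0 → Prop) {k : ℕ} (hk : 2 ≤ k)
    (h : Tr (fam R) (k + 1) univ ⊤) : ∃ N, Tr (fam (pw R (Fin N))) k univ ⊤ := by
  refine stepA (F := fun N => fam (pw R (Fin N))) hk ⟨fun _ => Fin.elim0, ?_⟩ ?_ ?_ ?_ ?_ ?_ h
  · ext x; simp [rel, pw]
  · rintro _ ⟨y, rfl⟩
    refine ⟨fun i _ => y i, ?_⟩
    ext x; simp [rel, pw]
  · rintro M N _ ⟨y, rfl⟩ _ ⟨y', rfl⟩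
    refine ⟨fun i => Fin.append (y i) (y' i), ?_⟩
    ext x
    simp only [rel, pw, mem_ofPred_eq, mem_inter_iff, ← eventually_and, Fin.forall_fin_add,
      Fin.append_left, Fin.append_right]
  · intro S hS anti h
    exact compact1 R _ S (fun n => by obtain ⟨N, hN⟩ := hS n; exact IntS.of_fam hN) anti h
  · rintro S ⟨N, hN⟩ h
    simpa only [iInter_const] using compact (pw R (Fin 2)) R k (k + 1) (fun _ => S)
      (fun _ => IntS.of_fam hN) antitone_const h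
  · intro N h
    simpa only [iInter_const] using compact1 (pw R (Fin N)) k (fun _ => univ)
      (fun _ => ⟨fun _ _ => True, by simp⟩) antitone_const h

theorem to2 [Nonempty X0] (k : ℕ) : ∀ {Y : Type w} [Nonempty Y] (R : X0 → Y → Prop),
    Tr (fam R) (k + 2) univ ⊤ → ∃ (ι : Type) (_ : Finite ι), Tr (fam (pw R ι)) 2 univ ⊤ := by
  induction k with
  | zero =>
    intro Y _ R h
    refine ⟨Unit, inferInstance, h.monoB ?_⟩
    rintro _ ⟨y, rfl⟩
    refine ⟨fun i _ => y i, ?_⟩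
    ext x; simp [rel, pw]
  | succ k ih =>
    intro Y _ R h
    obtain ⟨N, hN⟩ := stepA' R (k := k + 2) (by omega) h
    obtain ⟨ι, hι, h2⟩ := ih _ hN
    refine ⟨ι × Fin N, inferInstance, h2.monoB ?_⟩
    rintro _ ⟨y, rfl⟩
    refine ⟨fun i p => y i p.1 p.2, ?_⟩
    ext x; simp only [rel, pw, Prod.forall]

theorem free {I J : Type*} (F : Finset J) (x : J → I) (B : J → (I → ℕ) → Prop)
    (hB : ∀ j c c', (∀ i, i ≠ x j → c i = c' i) → B j c → B j c' → c (x j) = c' (x j)) :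
    ∃ c, ∀ j ∈ F, ¬ B j c := by
  classical
  by_contra hcon
  push Not at hcon
  let V := F.image x
  let N := F.card + 1
  let e : (V → Fin N) → I → ℕ := fun c i => if h : i ∈ V then (c ⟨i, h⟩ : ℕ) else 0
  let D : J → Finset (V → Fin N) := fun j => Finset.univ.filter fun c => B j (e c)
  have h1 : ∀ j ∈ F, (D j).card * N ≤ Fintype.card (V → Fin N) := by
    intro j hj
    have hx : x j ∈ V := Finset.mem_image_of_mem x hj
    have := Finset.card_le_card_of_injOn (s := D j ×ˢ (Finset.univ : Finset (Fin N)))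
      (t := (Finset.univ : Finset (V → Fin N)))
      (fun p => Function.update p.1 ⟨x j, hx⟩ p.2) (fun _ _ => by simp) (by
        rintro ⟨c, t⟩ hp ⟨c', t'⟩ hp' h
        simp only [Finset.coe_product, mem_prod, Finset.mem_coe, D, Finset.mem_filter] at hp hp'
        have ht : t = t' := by simpa using congrFun h ⟨x j, hx⟩
        have hne : ∀ v : V, v ≠ ⟨x j, hx⟩ → c v = c' v := by
          intro v hv
          simpa [Function.update_of_ne hv] using congrFun h v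
        have := hB j (e c) (e c') (fun i hi => by
          simp only [e]
          split_ifs with hv
          · rw [hne ⟨i, hv⟩ fun h => hi (congrArg Subtype.val h)]
          · rfl) hp.1.2 hp'.1.2
        simp only [e, hx, dif_pos] at this
        refine Prod.ext (funext fun v => ?_) ht
        by_cases hv : v = ⟨x j, hx⟩
        · subst hv; exact Fin.ext this
        · exact hne v hv)
    simpa using this
  have h2 : Fintype.card (V → Fin N) ≤ ∑ j ∈ F, (D j).card := by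
    refine le_trans (Finset.card_le_card (s := Finset.univ) (t := F.biUnion D) fun c _ => ?_)
      Finset.card_biUnion_le
    obtain ⟨j, hj, hb⟩ := hcon (e c)
    exact Finset.mem_biUnion.2 ⟨j, hj, by simp [D, hb]⟩
  have h3 : (∑ j ∈ F, (D j).card) * N ≤ F.card * Fintype.card (V → Fin N) := by
    rw [Finset.sum_mul]
    simpa using Finset.sum_le_card_nsmul F _ _ h1
  have h4 : 0 < Fintype.card (V → Fin N) := Fintype.card_pos
  have h5 := (Nat.mul_le_mul_right N h2).trans h3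
  simp only [N] at h5
  nlinarith

def gg (c : List ℕ → ℕ) : List ℕ → List ℕ → List ℕ
  | _, [] => []
  | ctx, i :: ρ => Nat.pair i (c (ctx ++ [i])) :: gg c (ctx ++ [i]) ρ

theorem gg_append (c : List ℕ → ℕ) (η ρ : List ℕ) :
    ∀ ctx, gg c ctx (η ++ ρ) = gg c ctx η ++ gg c (ctx ++ η) ρ := by
  induction η with
  | nil => simp [gg]
  | cons i η ih => intro ctx; simp [gg, ih]

theorem gg_congr {c c' : List ℕ → ℕ} (η : List ℕ) :
    ∀ ctx, (∀ ζ ρ, ζ ++ ρ = η → c (ctx ++ ζ) = c' (ctx ++ ζ)) → gg c ctx η = gg c' ctx η := by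
  induction η with
  | nil => simp [gg]
  | cons i η ih =>
    intro ctx h
    simp only [gg]
    rw [h [i] η rfl, ih (ctx ++ [i]) fun ζ ρ e => by simpa using h (i :: ζ) ρ (by simp [e])]

theorem exact_tree [Nonempty X0] [Nonempty Y0] (R : X0 → Y0 → Prop)
    (h : Tr (fam R) 2 univ ⊤) : ∃ (a : List ℕ → ℕ → Y0) (b : List ℕ → ℕ → X0),
      (∀ ν η, b ν ∈ rel R (a η) ↔ ∃ ρ, η ++ ρ = ν) ∧
      ∀ η i j, i ≠ j → ¬ ∃ x, x ∈ rel R (a (η ++ [i])) ∧ x ∈ rel R (a (η ++ [j])) := by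
  classical
  obtain ⟨A, h1, h2, h3⟩ := h
  choose y hy using h1
  choose x _ hx using fun ν => h2 ν le_top
  have h4 : ∀ η i j, i ≠ j → ∀ z, z ∈ A (η ++ [i]) → z ∈ A (η ++ [j]) → False := by
    intro η i j hij z e1 e2
    refine h3 η (by simp) {i, j} (Finset.card_pair hij) ⟨z, ?_⟩
    simp [e1, e2]
  have two : ∀ u v : ℕ → Y0, (¬ ∃ x, x ∈ rel R u ∧ x ∈ rel R v) ↔
      ∀ᶠ i in U, ¬ ∃ z, R z (u i) ∧ R z (v i) := by
    intro u v
    rw [Ultrafilter.eventually_not, Filter.skolem]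
    simp only [eventually_and, rel, mem_ofPred_eq]
  let Φ : List ℕ × List ℕ × ℕ × ℕ → ℕ → (List ℕ → Y0) × (List ℕ → X0) → Prop := fun p _ w =>
    (R (w.2 p.1) (w.1 p.2.1) ↔ ∃ ρ, p.2.1 ++ ρ = p.1) ∧
    (p.2.2.1 ≠ p.2.2.2 → ¬ ∃ z, R z (w.1 (p.2.1 ++ [p.2.2.1])) ∧ R z (w.1 (p.2.1 ++ [p.2.2.2])))
  obtain ⟨w, hw⟩ := sat Φ (by
    intro F
    let H : (List ℕ → ℕ) → List ℕ → List ℕ := fun c η => 0 :: gg c [] η
    have Hs : ∀ c η i, H c (η ++ [i]) = H c η ++ [Nat.pair i (c (η ++ [i]))] := by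
      intro c η i; simp [H, gg_append, gg]
    obtain ⟨c, hc⟩ := free F (fun p => p.2.1)
      (fun p c => (¬ ∃ ρ, p.2.1 ++ ρ = p.1) ∧ x (H c p.1) ∈ A (H c p.2.1)) (by
        rintro ⟨ν, η, r⟩ c c' hcc ⟨hn, e1⟩ ⟨hn', e2⟩
        clear hn'
        dsimp only at hcc hn e1 e2 ⊢
        rcases List.eq_nil_or_concat' η with rfl | ⟨ζ, i, rfl⟩
        · exact absurd ⟨ν, rfl⟩ hn
        have a1 : H c ν = H c' ν := by
          simp only [H]
          rw [gg_congr ν [] fun ξ ρ e => hcc _ fun e' => hn ⟨ρ, by rw [← e, ← e']; simp⟩]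
        have a2 : H c ζ = H c' ζ := by
          simp only [H]
          rw [gg_congr ζ [] fun ξ ρ e => hcc _ fun e' => ?_]
          have := congrArg List.length e
          have := congrArg List.length e'
          simp at *
          omega
        rw [Hs] at e1 e2
        rw [← a1, ← a2] at e2
        by_contra hne
        exact h4 _ _ _ (fun e => hne (Nat.pair_eq_pair.1 e).2) _ e1 e2)
    refine ⟨fun i => (fun η => y (H c η) i, fun ν => x (H c ν) i), ?_⟩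
    rintro ⟨ν, η, i, j⟩ hp
    refine Eventually.and ?_ (eventually_imp_distrib_left.2 fun hij => ?_)
    · by_cases hn : ∃ ρ, η ++ ρ = ν
      · obtain ⟨ρ, rfl⟩ := hn
        have := hx (H c (η ++ ρ)) (H c η) (gg c η ρ) (by simp [H]) (by simp [H, gg_append])
        rw [← hy] at this
        exact this.mono fun t ht => iff_of_true ht ⟨ρ, rfl⟩
      · have := fun e => hc _ hp ⟨hn, e⟩
        dsimp only at this
        rw [← hy] at this
        exact (Ultrafilter.eventually_not.2 this).mono fun t ht => iff_of_false ht hn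
    · refine (two (y (H c (η ++ [i]))) (y (H c (η ++ [j])))).1 ?_
      rintro ⟨z, e1, e2⟩
      rw [hy, Hs] at e1 e2
      exact h4 _ _ _ (fun e => hij (Nat.pair_eq_pair.1 e).1) _ e1 e2)
  refine ⟨fun η i => (w i).1 η, fun ν i => (w i).2 ν, fun ν η => ⟨fun h => ?_, fun h => ?_⟩,
    fun η i j hij => (two _ _).2 ((hw ([], η, i, j)).mono fun t ht => ht.2 hij)⟩
  · obtain ⟨t, e1, e2⟩ := (Eventually.and h (hw (ν, η, 0, 0))).exists
    exact e2.1.1 e1
  · exact (hw (ν, η, 0, 0)).mono fun t ht => ht.1.2 h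

end Pool.Agent.H.MP_4a08ba_lc
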