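import Pool.Agent.H.MP_4a08ba_lc.B

namespace Pool.Agent.H.MP_4a08ba_lc

open Set Filter FirstOrder FirstOrder.Language

def lt' {X Y : Type*} (ψ : X → Y → Prop) (p q : Prop × Prop × X × Y × Y) : Prop :=
  ((p.1 ∧ p.2.1) ∧ (q.1 ∧ ¬ q.2.1) ∧ ψ p.2.2.1 q.2.2.2.1 ∧ ψ p.2.2.1 q.2.2.2.2) ∨
  ((¬ p.1 ∧ p.2.1) ∧ (¬ q.1 ∧ ¬ q.2.1) ∧ ψ q.2.2.1 p.2.2.2.1 ∧ ψ q.2.2.1 p.2.2.2.2) ∨
  ((p.1 ∧ ¬ p.2.1) ∧ (¬ q.1 ∧ q.2.1) ∧ p.2.2.2.2 = q.2.2.2.2 ∧
    ¬ ∃ x, ψ x p.2.2.2.1 ∧ ψ x q.2.2.2.1) ∨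
  ((p.1 ∧ p.2.1) ∧ (¬ q.1 ∧ q.2.1) ∧ ψ p.2.2.1 q.2.2.2.2 ∧ ¬ ψ p.2.2.1 q.2.2.2.1) ∨
  ((p.1 ∧ ¬ p.2.1) ∧ (¬ q.1 ∧ ¬ q.2.1) ∧ ψ q.2.2.1 p.2.2.2.2 ∧ ¬ ψ q.2.2.1 p.2.2.2.1) ∨
  ((p.1 ∧ p.2.1) ∧ (¬ q.1 ∧ ¬ q.2.1) ∧ ¬ p.2.2.1 = q.2.2.1)

theorem lt'_trans {X Y : Type*} {ψ : X → Y → Prop} {p q r : Prop × Prop × X × Y × Y}
    (h1 : lt' ψ p q) (h2 : lt' ψ q r) : lt' ψ p r := by
  obtain ⟨p1, p2, pb, pI, pJ⟩ := p
  obtain ⟨q1, q2, qb, qI, qJ⟩ := q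
  obtain ⟨r1, r2, rb, rI, rJ⟩ := r
  simp only [lt'] at *
  rcases h1 with h1 | h1 | h1 | h1 | h1 | h1 <;> rcases h2 with h2 | h2 | h2 | h2 | h2 | h2 <;>
    grind

theorem lt'_asymm {X Y : Type*} {ψ : X → Y → Prop} {p q : Prop × Prop × X × Y × Y}
    (h1 : lt' ψ p q) (h2 : lt' ψ q p) : False := by
  obtain ⟨p1, p2, pb, pI, pJ⟩ := p
  obtain ⟨q1, q2, qb, qI, qJ⟩ := q
  simp only [lt'] at *
  rcases h1 with h1 | h1 | h1 | h1 | h1 | h1 <;> rcases h2 with h2 | h2 | h2 | h2 | h2 | h2 <;>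
    grind

def pre (ν η : List ℕ) : Prop := ∃ ρ, η ++ ρ = ν

structure Sg where
  t1 : Prop
  t2 : Prop
  z : List ℕ
  i : ℕ

def Sg.emb (s : Sg) : Prop × Prop × List ℕ × List ℕ × List ℕ := (s.t1, s.t2, s.z, s.z ++ [s.i], s.z)

instance : PartialOrder Sg where
  le s t := s = t ∨ lt' pre s.emb t.emb
  le_refl s := Or.inl rfl
  le_trans a b c h1 h2 := by
    rcases h1 with rfl | h1
    · exact h2
    rcases h2 with rfl | h2
    · exact Or.inr h1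
    exact Or.inr (lt'_trans h1 h2)
  le_antisymm a b h1 h2 := by
    rcases h1 with rfl | h1
    · rfl
    rcases h2 with rfl | h2
    · rfl
    exact (lt'_asymm h1 h2).elim

theorem Sg.le_def (s t : Sg) : s ≤ t ↔ s = t ∨ lt' pre s.emb t.emb := Iff.rfl

theorem pre_refl (ν : List ℕ) : pre ν ν := ⟨[], by simp⟩

theorem pre_antisymm {ν η : List ℕ} (h1 : pre ν η) (h2 : pre η ν) : ν = η := by
  obtain ⟨ρ, rfl⟩ := h1
  obtain ⟨σ, h⟩ := h2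
  have := congrArg List.length h
  simp at this
  simp [this.1]

theorem pre_sib {ν η : List ℕ} {i j : ℕ} (h1 : pre ν (η ++ [i])) (h2 : pre ν (η ++ [j])) :
    i = j := by
  obtain ⟨ρ, rfl⟩ := h1
  obtain ⟨σ, h⟩ := h2
  simp at h
  exact h.1.symm

theorem lt'_transfer {X Y : Type*} {ψ : X → Y → Prop} {a : List ℕ → Y} {b : List ℕ → X}
    (h1 : ∀ ν η, ψ (b ν) (a η) ↔ pre ν η)
    (h2 : ∀ η i j, i ≠ j → ¬ ∃ x, ψ x (a (η ++ [i])) ∧ ψ x (a (η ++ [j]))) (s t : Sg) :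
    lt' ψ (s.t1, s.t2, b s.z, a (s.z ++ [s.i]), a s.z) (t.t1, t.t2, b t.z, a (t.z ++ [t.i]), a t.z)
      ↔ lt' pre s.emb t.emb := by
  have ha : ∀ η η', a η = a η' ↔ η = η' := fun η η' => ⟨fun h => pre_antisymm
    ((h1 _ _).1 (h ▸ (h1 _ _).2 (pre_refl η))) ((h1 _ _).1 (h ▸ (h1 _ _).2 (pre_refl η'))),
    fun h => by rw [h]⟩
  have hb : ∀ η η', b η = b η' ↔ η = η' := fun η η' => ⟨fun h => pre_antisymm
    ((h1 _ _).1 (h ▸ (h1 _ _).2 (pre_refl η'))) ((h1 _ _).1 (h ▸ (h1 _ _).2 (pre_refl η))),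
    fun h => by rw [h]⟩
  have h3 : (s.z = t.z ∧ ¬ ∃ x, ψ x (a (s.z ++ [s.i])) ∧ ψ x (a (t.z ++ [t.i]))) ↔
      (s.z = t.z ∧ ¬ ∃ x, pre x (s.z ++ [s.i]) ∧ pre x (t.z ++ [t.i])) := by
    refine and_congr_right fun e => ⟨fun h ⟨x, e1, e2⟩ => h ⟨b x, (h1 _ _).2 e1, (h1 _ _).2 e2⟩,
      fun h => ?_⟩
    rw [e] at h ⊢
    exact h2 _ _ _ fun e' => h ⟨_, pre_refl _, e' ▸ pre_refl _⟩
  simp only [lt', Sg.emb, h1, ha, hb, h3]

variable (L : Language) {N : Type*} [L.Structure N]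

def Df {δ : Type} (P : (δ → N) → Prop) : Prop := ∃ φ : L.Formula δ, ∀ v, φ.Realize v ↔ P v

variable {L} {δ : Type} {P Q : (δ → N) → Prop}

theorem Df.and (h1 : Df L P) (h2 : Df L Q) : Df L fun v => P v ∧ Q v := by
  obtain ⟨φ, h1⟩ := h1
  obtain ⟨θ, h2⟩ := h2
  exact ⟨φ ⊓ θ, fun v => by simp [h1, h2]⟩

theorem Df.or (h1 : Df L P) (h2 : Df L Q) : Df L fun v => P v ∨ Q v := by
  obtain ⟨φ, h1⟩ := h1
  obtain ⟨θ, h2⟩ := h2
  exact ⟨φ ⊔ θ, fun v => by simp [h1, h2]⟩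

theorem Df.not (h1 : Df L P) : Df L fun v => ¬ P v := by
  obtain ⟨φ, h1⟩ := h1
  exact ⟨φ.not, fun v => by simp [h1]⟩

theorem Df.eq (i j : δ) : Df L fun v : δ → N => v i = v j :=
  ⟨Term.equal (Term.var i) (Term.var j), fun v => by simp⟩

theorem Df.all {ι : Type} [Finite ι] {P : ι → (δ → N) → Prop} (h : ∀ t, Df L (P t)) :
    Df L fun v => ∀ t, P t v := by
  choose φ h using h
  exact ⟨Formula.iInf φ, fun v => by simp [Formula.realize_iInf, h]⟩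

theorem Df.feq {ι : Type} [Finite ι] (f g : ι → δ) :
    Df L fun v : δ → N => (fun s => v (f s)) = fun s => v (g s) := by
  simp only [funext_iff]
  exact Df.all fun t => Df.eq _ _

theorem Df.app {α β : Type} (ψ : L.Formula (α ⊕ β)) (f : α → δ) (g : β → δ) :
    Df L fun v : δ → N => ψ.Realize (Sum.elim (fun s => v (f s)) fun s => v (g s)) := by
  refine ⟨ψ.relabel (Sum.elim f g), fun v => ?_⟩
  rw [Formula.realize_relabel, iff_iff_eq]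
  congr 1
  funext s; cases s <;> rfl

theorem Df.ex {α : Type} [Finite α] {P : (δ → N) → (α → N) → Prop}
    (h : Df L fun v : δ ⊕ α → N => P (fun s => v (Sum.inl s)) fun s => v (Sum.inr s)) :
    Df L fun v => ∃ x, P v x := by
  obtain ⟨φ, h⟩ := h
  exact ⟨φ.iExs α, fun v => by simp [Formula.realize_iExs, h]⟩

theorem build {α β : Type} [Finite α] [Finite β] (ψ : L.Formula (α ⊕ β))
    (a : List ℕ → β → N) (b : List ℕ → α → N)
    (h1 : ∀ ν η, ψ.Realize (Sum.elim (b ν) (a η)) ↔ pre ν η)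
    (h2 : ∀ η i j, i ≠ j → ¬ ∃ x, ψ.Realize (Sum.elim x (a (η ++ [i]))) ∧
      ψ.Realize (Sum.elim x (a (η ++ [j])))) :
    ∃ (γ : Type) (_ : Finite γ) (θ : L.Formula (γ ⊕ γ)) (c : Sg → γ → N), ∀ s t,
      (∀ x, θ.Realize (Sum.elim x (c s)) → θ.Realize (Sum.elim x (c t))) ↔ s ≤ t := by
  classical
  obtain ⟨u, v, huv⟩ : ∃ u v : N, u ≠ v := by
    by_contra h
    push Not at h
    have e : b [] = b [0] := funext fun s => h _ _
    have := (h1 [] [0]).1 (e ▸ (h1 _ _).2 (pre_refl _))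
    simp [pre] at this
  let γ := Fin 3 ⊕ α ⊕ β ⊕ β
  let R : (α → N) → (β → N) → Prop := fun x y => ψ.Realize (Sum.elim x y)
  let dec : (γ → N) → Prop × Prop × (α → N) × (β → N) × (β → N) := fun y =>
    (y (.inl 0) = y (.inl 1), y (.inl 0) = y (.inl 2), fun s => y (.inr (.inl s)),
      fun s => y (.inr (.inr (.inl s))), fun s => y (.inr (.inr (.inr s))))
  let c : Sg → γ → N := fun s => Sum.elim ![u, if s.t1 then u else v, if s.t2 then u else v]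
    (Sum.elim (b s.z) (Sum.elim (a (s.z ++ [s.i])) (a s.z)))
  have hc : ∀ s, dec (c s) = (s.t1, s.t2, b s.z, a (s.z ++ [s.i]), a s.z) := by
    intro s
    refine Prod.ext ?_ (Prod.ext ?_ rfl)
    · by_cases h : s.t1 <;> simp [dec, c, h, huv]
    · by_cases h : s.t2 <;> simp [dec, c, h, huv]
  have hinj : ∀ s t, c s = c t → s = t := by
    rintro ⟨s1, s2, z, i⟩ ⟨t1, t2, z', j⟩ h
    have := congrArg dec h
    rw [hc, hc] at this
    simp only [Prod.mk.injEq] at this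
    obtain ⟨rfl, rfl, -, e, -⟩ := this
    have := pre_antisymm ((h1 _ _).1 (e ▸ (h1 _ _).2 (pre_refl (z ++ [i]))))
      ((h1 _ _).1 (e ▸ (h1 _ _).2 (pre_refl (z' ++ [j]))))
    simp at this
    simp [this]
  have hD : Df L fun w : γ ⊕ γ → N => ((fun s => w (.inl s)) = fun s => w (.inr s)) ∨
      lt' R (dec fun s => w (.inl s)) (dec fun s => w (.inr s)) := by
    simp only [lt', dec, R]
    refine (Df.feq _ _).or (Df.or ?_ (Df.or ?_ (Df.or ?_ (Df.or ?_ (Df.or ?_ ?_)))))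
    · exact ((Df.eq _ _).and (Df.eq _ _)).and (((Df.eq _ _).and (Df.eq _ _).not).and
        ((Df.app ψ _ _).and (Df.app ψ _ _)))
    · exact ((Df.eq _ _).not.and (Df.eq _ _)).and (((Df.eq _ _).not.and (Df.eq _ _).not).and
        ((Df.app ψ _ _).and (Df.app ψ _ _)))
    · exact ((Df.eq _ _).and (Df.eq _ _).not).and (((Df.eq _ _).not.and (Df.eq _ _)).and
        ((Df.feq _ _).and (Df.ex ((Df.app ψ _ _).and (Df.app ψ _ _))).not))
    · exact ((Df.eq _ _).and (Df.eq _ _)).and (((Df.eq _ _).not.and (Df.eq _ _)).and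
        ((Df.app ψ _ _).and (Df.app ψ _ _).not))
    · exact ((Df.eq _ _).and (Df.eq _ _).not).and (((Df.eq _ _).not.and (Df.eq _ _).not).and
        ((Df.app ψ _ _).and (Df.app ψ _ _).not))
    · exact ((Df.eq _ _).and (Df.eq _ _)).and (((Df.eq _ _).not.and (Df.eq _ _).not).and
        (Df.feq _ _).not)
  obtain ⟨θ, hθ⟩ := hD
  have hθ' : ∀ x y, θ.Realize (Sum.elim x y) ↔ x = y ∨ lt' R (dec x) (dec y) := fun x y => hθ _
  refine ⟨γ, inferInstance, θ, c, fun s t => ?_⟩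
  simp only [hθ']
  constructor
  · intro h
    rcases h _ (Or.inl rfl) with h | h
    · exact Or.inl (hinj _ _ h)
    · rw [hc, hc] at h
      exact Or.inr ((lt'_transfer (ψ := R) h1 h2 s t).1 h)
  · rintro (rfl | h) x hx
    · exact hx
    · have h' : lt' R (dec (c s)) (dec (c t)) := by
        rw [hc, hc]; exact (lt'_transfer (ψ := R) h1 h2 s t).2 h
      rcases hx with rfl | hx
      · exact Or.inr h'
      · exact Or.inr (lt'_trans hx h')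

end Pool.Agent.H.MP_4a08ba_lc
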