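import Pool.Agent.H.MP_4a08ba_lc.C

namespace Pool.Agent.H.MP_4a08ba_lc

open Set Filter FirstOrder FirstOrder.Language

universe u v w

variable {L : FirstOrder.Language.{u, v}}

theorem range_pre (b : ℕ → ℕ) {n N : ℕ} (h : n ≤ N) :
    ∃ ρ, (List.range n).map b ++ ρ = (List.range N).map b := by
  obtain ⟨d, rfl⟩ := Nat.exists_eq_add_of_le h
  exact ⟨_, by rw [List.range_add, List.map_append]⟩

theorem sop_tp {N : Type*} [L.Structure N] {α β : Type} (φ : L.Formula (α ⊕ β))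
    (a : Sg → β → N)
    (h : ∀ s t, (∀ x, φ.Realize (Sum.elim x (a s)) → φ.Realize (Sum.elim x (a t))) ↔ s ≤ t) :
    ∃ (θ : L.Formula (α ⊕ (β ⊕ β))) (c : List ℕ → β ⊕ β → N),
      (∀ (b : ℕ → ℕ) (K : ℕ), ∃ x, ∀ n ≤ K, θ.Realize (Sum.elim x (c ((List.range n).map b)))) ∧
      ∀ (η : List ℕ) (s : Finset ℕ), s.card = 2 →
        ¬ ∃ x, ∀ i ∈ s, θ.Realize (Sum.elim x (c (η ++ [i]))) := by
  obtain ⟨θ, hθ⟩ := (Df.app (N := N) (δ := α ⊕ (β ⊕ β)) φ .inl fun s => .inr (.inl s)).and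
    (Df.app φ .inl fun s => .inr (.inr s)).not
  have hθ' : ∀ (x : α → N) (y y' : β → N), θ.Realize (Sum.elim x (Sum.elim y y')) ↔
      φ.Realize (Sum.elim x y) ∧ ¬ φ.Realize (Sum.elim x y') := fun x y y' => hθ _
  let z : List ℕ → List ℕ := fun η => (0 :: η).dropLast
  let l : List ℕ → ℕ := fun η => (0 :: η).getLast (by simp)
  have hzl : ∀ η, z η ++ [l η] = 0 :: η := fun η => List.dropLast_append_getLast _
  refine ⟨θ, fun η => Sum.elim (a ⟨True, False, z η, l η⟩) (a ⟨False, True, z η, l η⟩), ?_, ?_⟩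
  · intro b K
    let ν := 0 :: (List.range K).map b
    have h1 : ¬ (⟨True, True, ν, 0⟩ : Sg) ≤ ⟨False, False, ν, 0⟩ := by
      simp [Sg.le_def, lt', Sg.emb]
    rw [← h] at h1
    push Not at h1
    obtain ⟨x, h1, h2⟩ := h1
    refine ⟨x, fun n hn => ?_⟩
    obtain ⟨ρ, hρ⟩ := range_pre b hn
    have e1 : pre ν (z ((List.range n).map b) ++ [l ((List.range n).map b)]) :=
      ⟨ρ, by rw [hzl]; simp [ν, hρ]⟩
    have e2 : pre ν (z ((List.range n).map b)) := by
      obtain ⟨σ, hσ⟩ := e1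
      exact ⟨_, by rw [← hσ, List.append_assoc]⟩
    rw [hθ']
    refine ⟨(h _ _).2 ?_ x h1, fun h3 => h2 ((h _ _).2 ?_ x h3)⟩
    · simp [Sg.le_def, lt', Sg.emb, e1, e2]
    · simp [Sg.le_def, lt', Sg.emb, e1, e2]
  · rintro η s hs ⟨x, hx⟩
    obtain ⟨i, j, hij, rfl⟩ := Finset.card_eq_two.1 hs
    have e1 := (hθ' _ _ _).1 (hx i (by simp))
    have e2 := (hθ' _ _ _).1 (hx j (by simp))
    refine e2.2 ((h _ _).2 ?_ x e1.1)
    have z1 : ∀ i, z (η ++ [i]) = 0 :: η := fun i => by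
      show ((0 :: η) ++ [i]).dropLast = _
      exact List.dropLast_concat
    have l1 : ∀ i, l (η ++ [i]) = i := fun i => by
      have := hzl (η ++ [i])
      rw [z1] at this
      simpa using this
    rw [z1, z1, l1, l1]
    refine Or.inr (Or.inr (Or.inr (Or.inl ⟨by simp [Sg.emb], by simp [Sg.emb], rfl, ?_⟩)))
    rintro ⟨y, a1, a2⟩
    exact hij (pre_sib a1 a2)

theorem tp_sop (T : L.Theory) (M : Theory.ModelType.{u, v, w} T) {α β : Type} [Finite α]
    [Finite β] (φ : L.Formula (α ⊕ β)) (a : List ℕ → β → M)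
    (h1 : ∀ (b : ℕ → ℕ) (K : ℕ), ∃ x, ∀ n ≤ K, φ.Realize (Sum.elim x (a ((List.range n).map b))))
    (k : ℕ) (h2 : ∀ (η : List ℕ) (s : Finset ℕ), s.card = k →
      ¬ ∃ x, ∀ i ∈ s, φ.Realize (Sum.elim x (a (η ++ [i])))) :
    ∃ (γ : Type) (_ : Finite γ) (θ : L.Formula (γ ⊕ γ)) (N : Theory.ModelType.{u, v, w} T)
      (c : Sg → γ → N), ∀ s t,
      (∀ x, θ.Realize (Sum.elim x (c s)) → θ.Realize (Sum.elim x (c t))) ↔ s ≤ t := by
  let R : (α → M) → (β → M) → Prop := fun x y => φ.Realize (Sum.elim x y)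
  have hT : Tr (fam R) (k + 2) univ ⊤ := by
    refine ⟨fun η => rel R fun _ => a η, fun η => ⟨_, rfl⟩, fun ν _ => ?_, fun η _ s hs => ?_⟩
    · obtain ⟨x, hx⟩ := h1 (fun n => ν.getD n 0) ν.length
      refine ⟨fun _ => x, trivial, ?_⟩
      rintro η ρ - rfl
      refine Eventually.of_forall fun _ => ?_
      have := hx η.length (by simp)
      have e : (List.range η.length).map (fun n => (η ++ ρ).getD n 0) = η := by
        refine List.ext_getElem (by simp) fun n a1 a2 => ?_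
        simp [List.getElem?_append_left a2, a2]
      rw [e] at this
      exact this
    · obtain ⟨s', e1, e2⟩ := Finset.exists_subset_card_eq (show k ≤ s.card by omega)
      refine (incons_iff R s fun i _ => a (η ++ [i])).2 (Eventually.of_forall fun _ => ?_)
      rintro ⟨x, hx⟩
      exact h2 η s' e2 ⟨x, fun i hi => hx i (e1 hi)⟩
  obtain ⟨ι, hι, hT2⟩ := to2 k R hT
  obtain ⟨A, B, e1, e2⟩ := exact_tree _ hT2
  let N := Filter.Product U fun _ : ℕ => M
  letI : L.Structure N := Ultraproduct.structure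
  haveI : Nonempty N := Ultraproduct.Product.instNonempty
  haveI : N ⊨ T := ⟨fun σ hσ => (Ultraproduct.sentence_realize σ).2
    (Eventually.of_forall fun _ => T.realize_sentence_of_mem hσ)⟩
  obtain ⟨ψ, hψ⟩ := Df.all (L := L) (N := N) (δ := α ⊕ ι × β) fun t : ι =>
    Df.app φ .inl fun s => .inr (t, s)
  let cx : (ℕ → α → M) → α → N := fun x s => ((fun i => x i s : ℕ → M) : N)
  let cy : (ℕ → ι → β → M) → ι × β → N := fun y p => ((fun i => y i p.1 p.2 : ℕ → M) : N)
  have key : ∀ x y, ψ.Realize (Sum.elim (cx x) (cy y)) ↔ x ∈ rel (pw R ι) y := by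
    intro x y
    rw [hψ]
    simp only [rel, pw, mem_ofPred_eq, eventually_all]
    refine forall_congr' fun t => ?_
    have := Ultraproduct.realize_formula_cast (u := hyperfilter ℕ) (M := fun _ : ℕ => M) φ
      (Sum.elim (fun s i => x i s) fun s i => y i t s)
    refine Iff.trans (iff_of_eq ?_) (this.trans (eventually_congr (Eventually.of_forall
      fun i => iff_of_eq ?_)))
    · exact congrArg (fun v : α ⊕ β → N => φ.Realize v) (funext fun s => by cases s <;> rfl)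
    · exact congrArg (fun v : α ⊕ β → M => φ.Realize v) (funext fun s => by cases s <;> rfl)
  have surj : ∀ z : α → N, ∃ x, cx x = z := by
    intro z
    have : ∀ s, ∃ f : ℕ → M, (f : N) = z s := fun s => Quotient.exists_rep (z s)
    choose f hf using this
    exact ⟨fun i s => f s i, funext hf⟩
  obtain ⟨γ, hγ, θ, c, hc⟩ := build ψ (fun η => cy (A η)) (fun ν => cx (B ν))
    (fun ν η => (key _ _).trans (e1 ν η)) (by
      rintro η i j hij ⟨z, a1, a2⟩
      obtain ⟨x, rfl⟩ := surj z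
      exact e2 η i j hij ⟨x, (key _ _).1 a1, (key _ _).1 a2⟩)
  exact ⟨γ, hγ, θ, Theory.ModelType.of T N, c, hc⟩

end Pool.Agent.H.MP_4a08ba_lc
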